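import Pool.Agent.Q98.LF.H3

/-!
Spencer's bound for set functions which are Lipschitz with respect to suprema of Hilbert norms of additive
functions.

If `|f_i(S) - f_i(T)| ≤ R ‖h(S) - h(T)‖ + L √|S ∆ T|` for one (depending on `i, S, T`) of countably many additive
functions `h = h_{i0}, h_{i1}, …` with values in a real inner product space, the norms of the coefficients of
`h_{ij}` being at most `1 / √(1 + log (j+1))`, then the discrepancy of the family is at most `C (R + L) √n`,
uniformly in `m`.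
-/

set_option autoImplicit false

namespace Pool.Agent.Results.MP_506ba8_co.AdditiveSuprema

open Finset

theorem result : ∃ C : ℝ,
    (∀ (H : Type) [NormedAddCommGroup H] [InnerProductSpace ℝ H]
      (n m : ℕ) (f : Fin n → Finset (Fin m) → ℝ) (v : Fin n → ℕ → Fin m → H) (R L : ℝ),
      0 ≤ R → 0 ≤ L →
      (∀ i j g, ‖v i j g‖ ≤ 1 / √(1 + Real.log (j + 1))) →
      (∀ i S T, ∃ j, |f i S - f i T| ≤
        R * ‖∑ g ∈ S, v i j g - ∑ g ∈ T, v i j g‖ + L * √((symmDiff S T).card : ℝ)) →
      ∃ B : Finset (Fin m), ∀ i, |f i B - f i Bᶜ| ≤ C * (R + L) * √(n : ℝ)) ∧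
    (∀ (H : Type) [NormedAddCommGroup H] [InnerProductSpace ℝ H]
      (n m k : ℕ) (f : Fin n → Finset (Fin m) → ℝ) (v : Fin n → Fin k → Fin m → H) (L : ℝ),
      0 ≤ L →
      (∀ i j g, ‖v i j g‖ ≤ 1) →
      (∀ i S T, ∃ j, |f i S - f i T| ≤
        ‖∑ g ∈ S, v i j g - ∑ g ∈ T, v i j g‖ + L * √((symmDiff S T).card : ℝ)) →
      ∃ B : Finset (Fin m), ∀ i, |f i B - f i Bᶜ| ≤ C * (√(1 + Real.log k) + L) * √(n : ℝ)) := by
  classical
  refine ⟨24960, ?_, ?_⟩
  · intro H _ _ n m f v R L hR hL hv hf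
    choose J hJ using hf
    set k : ℕ := (univ.sup fun p : Fin n × Finset (Fin m) × Finset (Fin m) => J p.1 p.2.1 p.2.2) + 1 with hk
    have hJk : ∀ i S T, J i S T < k := by
      intro i S T
      have := Finset.le_sup (f := fun p : Fin n × Finset (Fin m) × Finset (Fin m) => J p.1 p.2.1 p.2.2)
        (mem_univ (i, S, T))
      simp only at this
      omega
    obtain ⟨B, hB⟩ := Pool.Agent.Q98.LF.hil_case n m k f (fun i j => v i j) R L hR hL
      (fun i j g => hv i j g) (fun i S T => ⟨⟨J i S T, hJk i S T⟩, hJ i S T⟩)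
    refine ⟨B, fun i => (hB i).trans ?_⟩
    have := mul_nonneg hL (Real.sqrt_nonneg (n : ℝ))
    nlinarith
  · intro H _ _ n m k f v L hL hv hf
    have hlk : 0 ≤ Real.log k := Real.log_natCast_nonneg k
    have hs : 0 < √(1 + Real.log k) := by positivity
    obtain ⟨B, hB⟩ := Pool.Agent.Q98.LF.hil_case n m k f (fun i j g => (√(1 + Real.log k))⁻¹ • v i j g)
      (√(1 + Real.log k)) L hs.le hL
      (fun i j g => by
        rw [norm_smul, norm_inv, Real.norm_of_nonneg hs.le, inv_mul_eq_div]
        have hj : Real.log ((j : ℕ) + 1) ≤ Real.log k := by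
          apply Real.log_le_log (by positivity)
          exact_mod_cast j.2
        have hj0 := Pool.Agent.Q98.LF.log_nn j
        unfold Pool.Agent.Q98.LF.wt
        exact div_le_div₀ zero_le_one (hv i j g) (by positivity)
          (Real.sqrt_le_sqrt (by linarith)))
      (fun i S T => by
        obtain ⟨j, hj⟩ := hf i S T
        refine ⟨j, hj.trans (add_le_add (le_of_eq ?_) le_rfl)⟩
        rw [← Finset.smul_sum, ← Finset.smul_sum, ← smul_sub, norm_smul, norm_inv,
          Real.norm_of_nonneg hs.le, mul_inv_cancel_left₀ hs.ne'])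
    refine ⟨B, fun i => (hB i).trans ?_⟩
    have := mul_nonneg hL (Real.sqrt_nonneg (n : ℝ))
    nlinarith

end Pool.Agent.Results.MP_506ba8_co.AdditiveSuprema
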